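import Mathlib

namespace Pool.Agent.H.MP_f9d380_an

open Finset Filter Topology

abbrev L1 : Type := lp (fun _ : ℕ => ℝ) 1

noncomputable def S : L1 →L[ℝ] ℝ := lp.tsumCLM ℝ ℕ ℝ

noncomputable def u (n : ℕ) : L1 := lp.single 1 n 1

theorem S_le (a : L1) : |S a| ≤ ‖a‖ := by
  simpa using S.le_of_opNorm_le_of_le lp.norm_tsumCLM_le (le_refl ‖a‖)

theorem u_app (n k : ℕ) : u k n = if n = k then 1 else 0 := by
  simp [u, lp.single_apply, Pi.single_apply]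

theorem S_u (n : ℕ) : S (u n) = 1 := by
  change ∑' i, u n i = 1
  simp [u_app]

theorem norm_u (n : ℕ) : ‖u n‖ = 1 := by rw [u, lp.norm_single (by simp)]; simp

theorem smul_u (n : ℕ) (r : ℝ) : r • u n = lp.single 1 n r := by
  rw [u, ← lp.single_smul]; simp

theorem compl (a : L1) (s : Finset ℕ) : ‖a - ∑ n ∈ s, a n • u n‖ = ‖a‖ - ∑ n ∈ s, |a n| := by
  simpa [smul_u] using lp.norm_compl_sum_single (p := 1) (by simp) a s

theorem sum_app (s : Finset ℕ) (b : ℕ → ℝ) (k : ℕ) :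
    (∑ n ∈ s, b n • u n) k = if k ∈ s then b k else 0 := by
  rw [lp.coeFn_sum, Finset.sum_apply]
  simp [u_app]

theorem best (a : L1) (A B : Finset ℕ) (b : ℕ → ℝ) (hc : B.card ≤ A.card) (hA : A.Nonempty)
    (g : ∀ n ∈ A, ∀ k ∉ A, |a k| ≤ |a n|) :
    ‖a - ∑ n ∈ A, a n • u n‖ ≤ ‖a - ∑ n ∈ B, b n • u n‖ := by
  have h1 := compl (a - ∑ n ∈ B, b n • u n) B
  have h2 : a - ∑ n ∈ B, b n • u n - ∑ n ∈ B, (a - ∑ n ∈ B, b n • u n : L1) n • u n =
      a - ∑ n ∈ B, a n • u n := by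
    rw [sub_sub, ← sum_add_distrib]
    congr 1
    refine sum_congr rfl fun n hn => ?_
    rw [lp.coeFn_sub, Pi.sub_apply, sum_app, if_pos hn, ← add_smul, add_sub_cancel]
  rw [h2, compl] at h1
  have h3 : ∑ n ∈ B, |a n| ≤ ∑ n ∈ A, |a n| := by
    obtain ⟨r, hr, h4⟩ := exists_min_image A (fun n => |a n|) hA
    have h5 : ∑ n ∈ B, (|a n| - |a r|) ≤ ∑ n ∈ B, if n ∈ A then |a n| - |a r| else 0 :=
      sum_le_sum fun n _ => by
        split_ifs with hn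
        · rfl
        · exact sub_nonpos.2 (g r hr n hn)
    rw [sum_ite_mem] at h5
    have h6 := h5.trans (sum_le_sum_of_subset_of_nonneg inter_subset_right
      fun n hn _ => sub_nonneg.2 (h4 n hn))
    simp only [sum_sub_distrib, sum_const, nsmul_eq_mul] at h6
    nlinarith [abs_nonneg (a r), (Nat.cast_le (α := ℝ)).2 hc]
  rw [compl]
  have : 0 ≤ ∑ n ∈ B, |(a - ∑ n ∈ B, b n • u n : L1) n| := sum_nonneg fun _ _ => abs_nonneg _
  linarith

noncomputable def Φ (M : ℝ) : (L1 × ℝ) →L[ℝ] ℝ :=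
  ContinuousLinearMap.snd ℝ L1 ℝ - M • S ∘L ContinuousLinearMap.fst ℝ L1 ℝ

def Y (M : ℝ) : Type := (Φ M).ker

noncomputable instance (M : ℝ) : NormedAddCommGroup (Y M) :=
  inferInstanceAs (NormedAddCommGroup (Φ M).ker)
noncomputable instance (M : ℝ) : NormedSpace ℝ (Y M) := inferInstanceAs (NormedSpace ℝ (Φ M).ker)
instance (M : ℝ) : CompleteSpace (Y M) := inferInstanceAs (CompleteSpace (Φ M).ker)

noncomputable def T (M : ℝ) : L1 →L[ℝ] Y M :=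
  ((ContinuousLinearMap.id ℝ L1).prod (M • S)).codRestrict (Φ M).ker fun a => by simp [Φ]

noncomputable def U (M : ℝ) : Y M →L[ℝ] L1 :=
  ContinuousLinearMap.fst ℝ L1 ℝ ∘L (Φ M).ker.subtypeL

theorem U_T (M : ℝ) (a : L1) : U M (T M a) = a := rfl

theorem T_U (M : ℝ) (f : Y M) : T M (U M f) = f :=
  Subtype.ext (Prod.ext rfl (sub_eq_zero.1 f.2).symm)

theorem norm_T (M : ℝ) (a : L1) : ‖T M a‖ = max ‖a‖ |M * S a| := rfl

theorem le_T (M : ℝ) (a : L1) : ‖a‖ ≤ ‖T M a‖ := le_max_left _ _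

theorem T_le {M : ℝ} (hM : 1 ≤ M) (a : L1) : ‖T M a‖ ≤ M * ‖a‖ := by
  rw [norm_T, abs_mul, abs_of_pos (by linarith : 0 < M)]
  exact max_le (by nlinarith [norm_nonneg a]) (mul_le_mul_of_nonneg_left (S_le a) (by linarith))

noncomputable def ev (M : ℝ) (n : ℕ) : Y M →L[ℝ] ℝ := lp.evalCLM ℝ (fun _ : ℕ => ℝ) 1 n ∘L U M

theorem ev_T (M : ℝ) (n : ℕ) (a : L1) : ev M n (T M a) = a n := rfl

theorem T_sum (M : ℝ) (s : Finset ℕ) (b : ℕ → ℝ) :
    ∑ n ∈ s, b n • T M (u n) = T M (∑ n ∈ s, b n • u n) := by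
  simp only [map_sum, map_smul]

theorem cheb (M : ℝ) (a : L1) (A B : Finset ℕ) (b : ℕ → ℝ) (hc : B.card ≤ A.card)
    (hA : A.Nonempty) (g : ∀ n ∈ A, ∀ k ∉ A, |a k| ≤ |a n|) : ∃ c : ℕ → ℝ,
      ‖T M a - ∑ n ∈ A, c n • T M (u n)‖ ≤ 2 * ‖T M a - ∑ n ∈ B, b n • T M (u n)‖ := by
  have h1 := best a A B b hc hA g
  obtain ⟨r, hr⟩ := hA
  let v := a - ∑ n ∈ A, a n • u n
  refine ⟨fun n => a n + if n = r then S v else 0, ?_⟩
  have e : a - ∑ n ∈ A, (a n + if n = r then S v else 0) • u n = v - S v • u r := by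
    simp only [add_smul, sum_add_distrib, ite_smul, zero_smul, sum_ite_eq', if_pos hr, v, sub_sub]
  rw [T_sum, T_sum, ← map_sub, ← map_sub, e, norm_T, map_sub S v, map_smul, S_u, smul_eq_mul, mul_one,
    sub_self, mul_zero, abs_zero, max_eq_left (norm_nonneg _)]
  have h2 := norm_sub_le v (S v • u r)
  rw [norm_smul, norm_u, mul_one, Real.norm_eq_abs] at h2
  linarith [S_le v, le_T M (a - ∑ n ∈ B, b n • u n)]

end Pool.Agent.H.MP_f9d380_an
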