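import Mathlib

namespace Pool.Agent.H.MP_f9d380_an

open Finset

theorem exists_cut (F : Finset ℕ) (M k : ℕ) (hF : F ⊆ range M) (hk : k ≤ F.card) :
    ∃ n ≤ M, (F.filter (· < n)).card = k := by
  have hM : k ≤ (F.filter (· < M)).card := by
    rwa [filter_true_of_mem fun m hm => mem_range.1 (hF hm)]
  have ex : ∃ n, k ≤ (F.filter (· < n)).card := ⟨M, hM⟩
  refine ⟨Nat.find ex, Nat.find_min' ex hM, le_antisymm ?_ (Nat.find_spec ex)⟩
  rcases h0 : Nat.find ex with _ | p
  · simp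
  have h1 := Nat.find_min ex (m := p) (by omega)
  have h2 : (F.filter (· < p + 1)) ⊆ insert p (F.filter (· < p)) := fun m hm => by
    simp only [mem_filter, mem_insert] at *
    by_cases hp : m = p
    · exact Or.inl hp
    · exact Or.inr ⟨hm.1, by omega⟩
  have := (card_le_card h2).trans (card_insert_le _ _)
  omega

variable {𝕜 X : Type} [RCLike 𝕜] [AddCommGroup X] [Module 𝕜 X]

structure Ctx (q : X → ℝ) (x : ℕ → X) (e : ℕ → X →ₗ[𝕜] 𝕜) (p c K L : ℝ) (m : ℕ) : Prop where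
  p0 : 0 < p
  nn : ∀ f, 0 ≤ q f
  sm : ∀ (a : 𝕜) f, q (a • f) = ‖a‖ ^ p * q f
  tri : ∀ f g, q (f + g) ≤ q f + q g
  bi : ∀ n k, e n (x k) = if n = k then 1 else 0
  qx : ∀ n, q (x n) ≤ c
  qe : ∀ n f, ‖e n f‖ ^ p ≤ c * q f
  qP : ∀ m f, q (∑ n ∈ range m, e n f • x n) ≤ K * q f
  ch : ∀ f (A : Finset ℕ), A.card = m → (∀ n ∈ A, ∀ k ∉ A, ‖e k f‖ < ‖e n f‖) →
    ∀ (B : Finset ℕ) (b : ℕ → 𝕜), B.card ≤ m →
      ∃ a : ℕ → 𝕜, q (f - ∑ n ∈ A, a n • x n) ≤ L * q (f - ∑ n ∈ B, b n • x n)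

variable {q : X → ℝ} {x : ℕ → X} {e : ℕ → X →ₗ[𝕜] 𝕜} {p c K L : ℝ} {m : ℕ}

theorem Ctx.coef (h : Ctx q x e p c K L m) (s : Finset ℕ) (b : ℕ → 𝕜) (k : ℕ) :
    e k (∑ n ∈ s, b n • x n) = if k ∈ s then b k else 0 := by
  simp [map_sum, h.bi]

theorem Ctx.sub (h : Ctx q x e p c K L m) (f g : X) : q (f - g) ≤ q f + q g := by
  have := h.sm (-1) g
  simp only [neg_smul, one_smul, norm_neg, norm_one, Real.one_rpow, one_mul] at this
  rw [sub_eq_add_neg, ← this]; exact h.tri _ _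

theorem Ctx.one (h : Ctx q x e p c K L m) (n : ℕ) : 1 ≤ c * q (x n) := by
  simpa [h.bi] using h.qe n (x n)

theorem Ctx.c0 (h : Ctx q x e p c K L m) : 0 ≤ c := (h.nn _).trans (h.qx 0)

theorem Ctx.K0 (h : Ctx q x e p c K L m) : 0 ≤ K := by
  have h1 := h.qP 1 (x 0)
  have h2 := h.one 0
  have h3 := h.nn (x 0)
  simp only [range_one, sum_singleton, h.bi, if_true, one_smul] at h1
  by_contra hK
  have : 0 < q (x 0) := h3.lt_of_ne fun h4 => by rw [← h4] at h2; norm_num at h2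
  nlinarith

theorem Ctx.L1 (h : Ctx q x e p c K L m) : 1 ≤ c * c * L := by
  obtain ⟨a, ha⟩ := h.ch (∑ n ∈ range (m + 1), (if n < m then (2 : 𝕜) else 1) • x n) (range m)
    (card_range m) (fun n hn k hk => by
      rw [h.coef, h.coef]
      simp only [mem_range] at *
      rw [if_pos (show n < m + 1 by omega), if_pos hn, if_neg hk]
      split_ifs <;> norm_num) (range m) (fun n => if n < m then (2 : 𝕜) else 1) (card_range m).le
  have h2 := h.qe m (∑ n ∈ range (m + 1), (if n < m then (2 : 𝕜) else 1) • x n -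
    ∑ n ∈ range m, a n • x n)
  rw [map_sub, h.coef, h.coef] at h2
  rw [sum_range_succ (fun n => (if n < m then (2 : 𝕜) else 1) • x n), add_sub_cancel_left] at ha
  rw [sum_range_succ (fun n => (if n < m then (2 : 𝕜) else 1) • x n)] at h2
  simp only [mem_range, lt_add_iff_pos_right, Nat.lt_one_iff, pos_of_gt, if_true, lt_irrefl,
    if_false, sub_zero, norm_one, Real.one_rpow, one_smul] at h2 ha
  have h3 := h2.trans (mul_le_mul_of_nonneg_left ha h.c0)
  have h4 := h.qx m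
  have h5 := h.nn (x m)
  have h6 := h.c0
  have hL : 0 ≤ L := by
    by_contra hL
    have := mul_nonneg h6 (mul_nonneg (neg_nonneg.2 (not_le.1 hL).le) h5)
    nlinarith
  nlinarith [mul_le_mul_of_nonneg_left h4 (mul_nonneg h6 hL)]

theorem Ctx.L0 (h : Ctx q x e p c K L m) : 0 ≤ L := by
  have := h.L1
  by_contra hL
  nlinarith [mul_nonneg h.c0 h.c0]

theorem Ctx.ico (h : Ctx q x e p c K L m) (f : X) (i j : ℕ) :
    q (∑ n ∈ Ico i j, e n f • x n) ≤ 2 * K * q f := by
  rcases le_total i j with hij | hij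
  · rw [sum_Ico_eq_sub _ hij]
    linarith [h.sub (∑ n ∈ range j, e n f • x n) (∑ n ∈ range i, e n f • x n), h.qP i f, h.qP j f]
  · have := h.qP 0 f
    rw [Ico_eq_empty_of_le hij]
    rw [range_zero] at this
    linarith [mul_nonneg h.K0 (h.nn f)]

theorem Ctx.strict (h : Ctx q x e p c K L m) (M : ℕ) (b b' : ℕ → 𝕜) (G R : Finset ℕ)
    (hG : G ⊆ range M) (hR : R ⊆ range M) (hm : G.card ≤ m) (hc : R.card ≤ G.card)
    (g1 : ∀ n ∈ G, ∀ k < M, k ∉ G → ‖b k‖ < ‖b n‖) (g2 : ∀ n ∈ G, 0 < ‖b n‖)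
    (hb : ∀ n < M, n ∉ R → b n = b' n) (i j : ℕ) (hj : j ≤ M) (hd : ∀ n ∈ Ico i j, n ∉ G) :
    q (∑ n ∈ Ico i j, b n • x n) ≤ 2 * K * (L * q (∑ n ∈ range M, b' n • x n)) := by
  let T : ℝ := 1 + ∑ n ∈ range M, ‖b n‖
  have s0 : 0 ≤ ∑ n ∈ range M, ‖b n‖ := sum_nonneg fun _ _ => norm_nonneg _
  have T1 : ‖(T : 𝕜)‖ = T := by rw [RCLike.norm_ofReal, abs_of_nonneg (by positivity)]
  have T2 : ∀ k < M, ‖b k‖ < T := fun k hk =>
    (single_le_sum (f := fun n => ‖b n‖) (fun _ _ => norm_nonneg _) (mem_range.2 hk)).trans_lt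
      (lt_one_add _)
  let M' := M + (m - G.card)
  let H : ℕ → 𝕜 := fun n => if n < M then b n else T
  let H' : ℕ → 𝕜 := fun n => if n < M then b' n else 0
  have dj : ∀ S ⊆ range M, (S ∪ Ico M M').card = S.card + (m - G.card) := fun S hS => by
    rw [card_union_of_disjoint (disjoint_left.2 fun n h1 h2 => by
      have := mem_range.1 (hS h1); have := (mem_Ico.1 h2).1; omega), Nat.card_Ico]
    omega
  obtain ⟨a, ha⟩ := h.ch (∑ n ∈ range M', H n • x n) (G ∪ Ico M M') (by rw [dj G hG]; omega)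
    (fun n hn k hk => by
      rw [h.coef, h.coef]
      simp only [mem_union, mem_Ico, mem_range, not_or, H] at *
      rcases hn with hn | hn
      · have := mem_range.1 (hG hn)
        rw [if_pos (show n < M' by omega), if_pos this]
        split_ifs with h1 h2
        · exact g1 n hn k h2 hk.1
        · omega
        · simpa using g2 n hn
      · rw [if_pos hn.2, if_neg (not_lt.2 hn.1), T1]
        split_ifs with h1 h2
        · exact T2 k h2
        · omega
        · rw [norm_zero]; positivity)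
    (R ∪ Ico M M') (fun n => H n - H' n) (by rw [dj R hR]; omega)
  have e1 : ∑ n ∈ R ∪ Ico M M', (H n - H' n) • x n = ∑ n ∈ range M', (H n - H' n) • x n :=
    sum_subset (fun n hn => by
      rcases mem_union.1 hn with hn | hn
      · have := mem_range.1 (hR hn); exact mem_range.2 (by omega)
      · exact mem_range.2 (mem_Ico.1 hn).2) fun n h1 h2 => by
      simp only [mem_union, mem_Ico, mem_range, not_or, H, H'] at *
      have : n < M := by omega
      rw [if_pos this, if_pos this, hb n this h2.1, sub_self, zero_smul]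
  have e2 : ∑ n ∈ range M, H' n • x n = ∑ n ∈ range M', H' n • x n :=
    sum_subset (range_subset_range.2 (by omega)) fun n _ h2 => by
      simp only [H', if_neg (mt mem_range.2 h2), zero_smul]
  have e3 : ∑ n ∈ range M', H n • x n - ∑ n ∈ range M', (H n - H' n) • x n =
      ∑ n ∈ range M, b' n • x n := by
    rw [← sum_sub_distrib, sum_congr rfl (g := fun n => H' n • x n) fun n _ => by
      rw [sub_smul, sub_sub_cancel], ← e2]
    exact sum_congr rfl fun n hn => by simp only [H', if_pos (mem_range.1 hn)]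
  rw [e1, e3] at ha
  refine le_trans (le_of_eq ?_) ((h.ico _ i j).trans
    (mul_le_mul_of_nonneg_left ha (by linarith [h.K0])))
  congr 1
  refine sum_congr rfl fun n hn => ?_
  have h1 := (mem_Ico.1 hn).2
  rw [map_sub, h.coef, h.coef, if_pos (mem_range.2 (by omega)), if_neg (by
    simp only [mem_union, mem_Ico, not_or]; exact ⟨hd n hn, by omega⟩), sub_zero]
  simp only [H, if_pos (show n < M by omega)]

theorem Ctx.weak (h : Ctx q x e p c K L m) (M : ℕ) (b b' : ℕ → 𝕜) (G R : Finset ℕ)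
    (hG : G ⊆ range M) (hR : R ⊆ range M) (hm : G.card ≤ m) (hc : R.card ≤ G.card)
    (g1 : ∀ n ∈ G, ∀ k < M, k ∉ G → ‖b k‖ ≤ ‖b n‖)
    (hb : ∀ n < M, n ∉ R → b n = b' n) (i j : ℕ) (hj : j ≤ M) (hd : ∀ n ∈ Ico i j, n ∉ G) :
    q (∑ n ∈ Ico i j, b n • x n) ≤ 2 * K * (L * q (∑ n ∈ range M, b' n • x n)) := by
  choose u u1 u2 using fun n => RCLike.exists_norm_mul_eq_self (b n)
  let w : ℕ → 𝕜 := fun n => if n ∈ G then u n else 0
  let W := q (∑ n ∈ range M, w n • x n)
  have KL : 0 ≤ 2 * K * L := mul_nonneg (by linarith [h.K0]) h.L0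
  have W0 : 0 ≤ 2 * K * L * W := mul_nonneg KL (h.nn _)
  refine le_of_forall_pos_le_add fun η hη => ?_
  let s : ℝ := η / (2 * K * L * W + 1)
  have s0 : 0 < s := by positivity
  let δ : ℝ := s ^ p⁻¹
  have δ0 : 0 < δ := Real.rpow_pos_of_pos s0 _
  have δ1 : ‖(δ : 𝕜)‖ ^ p = s := by
    rw [RCLike.norm_ofReal, abs_of_pos δ0]; exact Real.rpow_inv_rpow s0.le h.p0.ne'
  have n1 : ∀ n ∈ G, ‖b n + δ * w n‖ = ‖b n‖ + δ := fun n hn => by
    have : b n + δ * w n = u n * ((‖b n‖ + δ : ℝ) : 𝕜) := by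
      simp only [w, if_pos hn]; push_cast; rw [mul_add, u2]; ring
    rw [this, norm_mul, u1, one_mul, RCLike.norm_ofReal, abs_of_pos (by positivity)]
  have n2 : ∀ n ∉ G, ∀ z : 𝕜, z + δ * w n = z := fun n hn z => by simp [w, hn]
  have k := h.strict M (fun n => b n + δ * w n) (fun n => b' n + δ * w n) G R hG hR hm hc
    (fun n hn k h1 h2 => by rw [n1 n hn, n2 k h2]; linarith [g1 n hn k h1 h2])
    (fun n hn => by rw [n1 n hn]; positivity) (fun n h1 h2 => by rw [hb n h1 h2]) i j hj hd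
  rw [sum_congr rfl (g := fun n => b n • x n) fun n hn => by rw [n2 n (hd n hn)]] at k
  have e : ∑ n ∈ range M, (b' n + δ * w n) • x n =
      ∑ n ∈ range M, b' n • x n + (δ : 𝕜) • ∑ n ∈ range M, w n • x n := by
    simp only [add_smul, sum_add_distrib, smul_sum, mul_smul]
  have t := h.tri (∑ n ∈ range M, b' n • x n) ((δ : 𝕜) • ∑ n ∈ range M, w n • x n)
  rw [← e, h.sm, δ1] at t
  have t2 := mul_le_mul_of_nonneg_left t KL
  have t3 : s * (2 * K * L * W + 1) = η := div_mul_cancel₀ _ (by positivity)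
  nlinarith

theorem Ctx.core (h : Ctx q x e p c K L m) (M : ℕ) (b b' : ℕ → 𝕜) (G R : Finset ℕ) (τ : ℝ)
    (hG : G ⊆ range M) (hR : R ⊆ range M) (hm : G.card ≤ m) (hc : R.card ≤ G.card + 1)
    (g1 : ∀ n ∈ G, ∀ k < M, k ∉ G → ‖b k‖ ≤ ‖b n‖) (τ0 : 0 ≤ τ)
    (hτ : ∀ n ∈ R, ‖b n - b' n‖ ^ p ≤ τ)
    (hb : ∀ n < M, n ∉ R → b n = b' n) (i j : ℕ) (hj : j ≤ M) (hd : ∀ n ∈ Ico i j, n ∉ G) :
    q (∑ n ∈ Ico i j, b n • x n) ≤ 2 * K * L * (q (∑ n ∈ range M, b' n • x n) + τ * c) := by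
  have KL : 0 ≤ 2 * K * L := mul_nonneg (by linarith [h.K0]) h.L0
  rcases R.eq_empty_or_nonempty with rfl | ⟨r, hr⟩
  · have := h.weak M b b' G ∅ hG hR hm (by simp) g1 hb i j hj hd
    nlinarith [mul_nonneg KL (mul_nonneg τ0 h.c0)]
  have k := h.weak M b (fun n => b' n + if n = r then b r - b' r else 0) G (R.erase r) hG
    ((erase_subset _ _).trans hR) hm (by rw [card_erase_of_mem hr]; omega) g1
    (fun n h1 h2 => by
      by_cases hn : n = r
      · simp [hn]
      · rw [if_neg hn, add_zero]; exact hb n h1 fun h3 => h2 (mem_erase.2 ⟨hn, h3⟩)) i j hj hd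
  have e : ∑ n ∈ range M, (b' n + if n = r then b r - b' r else 0) • x n =
      ∑ n ∈ range M, b' n • x n + (b r - b' r) • x r := by
    simp only [add_smul, sum_add_distrib, ite_smul, zero_smul, sum_ite_eq', if_pos (hR hr)]
  have t := h.tri (∑ n ∈ range M, b' n • x n) ((b r - b' r) • x r)
  rw [← e, h.sm] at t
  have t2 := mul_le_mul (hτ r hr) (h.qx r) (h.nn _) τ0
  have t3 := mul_le_mul_of_nonneg_left (t.trans (add_le_add_right t2 _)) KL
  linarith

theorem Ctx.qg (h : Ctx q x e p c K L m) (f : X) (A : Finset ℕ) (hA : A.card ≤ m)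
    (g : ∀ n ∈ A, ∀ k ∉ A, ‖e k f‖ ≤ ‖e n f‖) :
    q (∑ n ∈ A, e n f • x n) ≤ (K * (c * c) + 4 * K * (K + c * c)) * L * q f := by
  let M := A.sup id + 1
  have hM : A ⊆ range M := fun n hn => mem_range.2 (Nat.lt_succ_of_le (le_sup (f := id) hn))
  obtain ⟨i, hi, ci⟩ := exists_cut A M (A.card / 2) hM (by omega)
  have cj := card_filter_add_card_filter_not (s := A) (· < i)
  have KL : 0 ≤ 2 * K * L := mul_nonneg (by linarith [h.K0]) h.L0
  have τ0 := mul_nonneg h.c0 (h.nn f)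
  have side : ∀ (P : ℕ → Prop) [DecidablePred P] (s t : ℕ), t ≤ M → (∀ n ∈ Ico s t, P n) →
      (A.filter P).card ≤ (A.filter fun n => ¬ P n).card + 1 →
      q (∑ n ∈ Ico s t, (if n ∈ A then 0 else e n f) • x n) ≤
        2 * K * L * (K * q f + c * q f * c) := by
    intro P _ s t ht hP hc
    have k := h.core M (fun n => if n ∈ A.filter P then 0 else e n f) (fun n => e n f)
      (A.filter fun n => ¬ P n) (A.filter P) (c * q f) ((filter_subset _ _).trans hM)
      ((filter_subset _ _).trans hM) ((card_filter_le _ _).trans hA) hc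
      (fun n hn k _ hk => by
        simp only [mem_filter] at *
        rw [if_neg (show ¬ (n ∈ A ∧ P n) from fun h1 => hn.2 h1.2)]
        split_ifs with h1
        · simp
        · exact g n hn.1 k fun h2 => by tauto) τ0
      (fun n hn => by rw [if_pos hn, zero_sub, norm_neg]; exact h.qe n f)
      (fun n _ hn => if_neg hn) s t ht fun n hn h1 => (mem_filter.1 h1).2 (hP n hn)
    rw [sum_congr rfl (g := fun n => (if n ∈ A then 0 else e n f) • x n) fun n hn => by
      simp only [mem_filter, hP n hn, and_true]] at k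
    exact k.trans (mul_le_mul_of_nonneg_left (add_le_add_left (h.qP M f) _) KL)
  have s1 := side (· < i) 0 i hi (fun n hn => (mem_Ico.1 hn).2) (by omega)
  have s2 := side (fun n => ¬ n < i) i M le_rfl (fun n hn => not_lt.2 (mem_Ico.1 hn).1)
    (by simp only [not_not]; omega)
  have e1 : ∑ n ∈ A, e n f • x n = ∑ n ∈ range M, e n f • x n -
      (∑ n ∈ Ico 0 i, (if n ∈ A then 0 else e n f) • x n +
        ∑ n ∈ Ico i M, (if n ∈ A then 0 else e n f) • x n) := by
    rw [sum_Ico_consecutive _ (Nat.zero_le i) hi, ← range_eq_Ico, ← sum_sub_distrib,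
      ← sum_subset hM fun n _ hn => by rw [if_neg hn, sub_self]]
    exact sum_congr rfl fun n hn => by rw [if_pos hn, zero_smul, sub_zero]
  rw [e1]
  refine (h.sub _ _).trans ((add_le_add (h.qP M f) ((h.tri _ _).trans (add_le_add s1 s2))).trans ?_)
  nlinarith [mul_le_mul_of_nonneg_left h.L1 (mul_nonneg h.K0 (h.nn f))]

theorem Ctx.lam (h : Ctx q x e p c K L m) (f : X) (A B : Finset ℕ) (ε : ℕ → 𝕜) (t : ℝ)
    (hB : B.card ≤ m) (hA : A.card = B.card) (hε : ∀ n ∈ A, ‖ε n‖ = 1) (t0 : 0 ≤ t)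
    (ht : ∀ n ∈ B, t ≤ ‖e n f‖) (g : ∀ n ∈ B, ∀ k ∉ B, ‖e k f‖ ≤ ‖e n f‖) :
    t ^ p * q (∑ n ∈ A, ε n • x n) ≤ 8 * K * (2 * K + c * c) * L * q f := by
  have KL : 0 ≤ 2 * K * L := mul_nonneg (by linarith [h.K0]) h.L0
  have τ0 := mul_nonneg h.c0 (h.nn f)
  have tn : ‖(t : 𝕜)‖ = t := by rw [RCLike.norm_ofReal, abs_of_nonneg t0]
  have Z0 : 0 ≤ 2 * K * L * (2 * K * q f + c * q f * c) :=
    mul_nonneg KL (add_nonneg (mul_nonneg (by linarith [h.K0]) (h.nn f)) (mul_nonneg τ0 h.c0))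
  rcases B.eq_empty_or_nonempty with rfl | ⟨r, hr⟩
  · have := h.sm 0 0
    rw [card_empty, card_eq_zero] at hA
    rw [norm_zero, Real.zero_rpow h.p0.ne', zero_mul, zero_smul] at this
    rw [hA, sum_empty, this, mul_zero]
    nlinarith
  have tp : t ^ p ≤ c * q f := (Real.rpow_le_rpow t0 (ht r hr) h.p0.le).trans (h.qe r f)
  let M := (A ∪ B).sup id + 1
  have hM : A ∪ B ⊆ range M := fun n hn => mem_range.2 (Nat.lt_succ_of_le (le_sup (f := id) hn))
  have hMA := subset_union_left.trans hM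
  have hMB := subset_union_right.trans hM
  obtain ⟨i, hi, ci⟩ := exists_cut B M (B.card / 2) hMB (by omega)
  have cj := card_filter_add_card_filter_not (s := B) (· < i)
  have piece : ∀ (s u s' u' : ℕ) (R : Finset ℕ), u ≤ M → u' ≤ M →
      (∀ n ∈ Ico s u, n ∉ Ico s' u') → R ⊆ A.filter (· ∈ Ico s u) →
      R.card ≤ (B.filter (· ∈ Ico s' u')).card + 1 →
      q (∑ n ∈ R, (t * ε n) • x n) ≤ 2 * K * L * (2 * K * q f + c * q f * c) := by
    intro s u s' u' R hu hu' hd hR hc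
    have R1 : ∀ n ∈ R, n ∈ A := fun n hn => (mem_filter.1 (hR hn)).1
    have R2 : ∀ n ∈ R, n ∈ Ico s u := fun n hn => (mem_filter.1 (hR hn)).2
    have k := h.core M (fun n => if n ∈ Ico s' u' then e n f else if n ∈ R then t * ε n else 0)
      (fun n => if n ∈ Ico s' u' then e n f else 0) (B.filter (· ∈ Ico s' u')) R (c * q f)
      ((filter_subset _ _).trans hMB) (fun n hn => hMA (R1 n hn))
      ((card_filter_le _ _).trans hB) hc
      (fun n hn k _ hk => by
        rw [mem_filter] at hn hk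
        rw [if_pos hn.2]
        split_ifs with h1 h2
        · exact g n hn.1 k fun h3 => hk ⟨h3, h1⟩
        · rw [norm_mul, hε k (R1 k h2), tn, mul_one]; exact ht n hn.1
        · simp) τ0
      (fun n hn => by
        rw [if_neg (hd n (R2 n hn)), if_neg (hd n (R2 n hn)), if_pos hn, sub_zero, norm_mul,
          hε n (R1 n hn), tn, mul_one]; exact tp)
      (fun n _ hn => by rw [if_neg hn]) s u hu fun n hn h1 => hd n hn (mem_filter.1 h1).2
    rw [← sum_subset (s₁ := R) R2 fun n h1 h2 => by rw [if_neg (hd n h1), if_neg h2, zero_smul],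
      sum_congr rfl (g := fun n => (t * ε n) • x n) fun n hn => by
        rw [if_neg (hd n (R2 n hn)), if_pos hn],
      ← sum_subset (s₁ := Ico s' u') (s₂ := range M)
        (fun n hn => mem_range.2 ((mem_Ico.1 hn).2.trans_le hu'))
        fun n _ h2 => by rw [if_neg h2, zero_smul],
      sum_congr rfl (s₁ := Ico s' u') (g := fun n => e n f • x n) fun n hn => by
        rw [if_pos hn]] at k
    exact k.trans (mul_le_mul_of_nonneg_left (add_le_add_left (h.ico f s' u') _) KL)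
  have side : ∀ (s u s' u' : ℕ), u ≤ M → u' ≤ M → (∀ n ∈ Ico s u, n ∉ Ico s' u') →
      B.card / 2 ≤ (B.filter (· ∈ Ico s' u')).card →
      q (∑ n ∈ A.filter (· ∈ Ico s u), (t * ε n) • x n) ≤
        2 * (2 * K * L * (2 * K * q f + c * q f * c)) := by
    intro s u s' u' hu hu' hd hc
    have c1 := card_filter_le A (· ∈ Ico s u)
    obtain ⟨R, hR, cR⟩ := exists_subset_card_eq
      (show (A.filter (· ∈ Ico s u)).card / 2 ≤ (A.filter (· ∈ Ico s u)).card by omega)
    rw [← sum_sdiff hR]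
    have c2 := card_sdiff_of_subset hR
    linarith [h.tri (∑ n ∈ A.filter (· ∈ Ico s u) \ R, (t * ε n) • x n)
      (∑ n ∈ R, (t * ε n) • x n), piece s u s' u' R hu hu' hd hR (by omega),
      piece s u s' u' _ hu hu' hd (sdiff_subset (t := R)) (by omega)]
  have f1 : ∀ S ⊆ range M, S.filter (· ∈ Ico 0 i) = S.filter (· < i) := fun S _ =>
    filter_congr fun n _ => by simp
  have f2 : ∀ S ⊆ range M, S.filter (· ∈ Ico i M) = S.filter (fun n => ¬ n < i) := fun S hS =>
    filter_congr fun n hn => by simp [mem_range.1 (hS hn)]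
  have s1 := side 0 i i M hi le_rfl (fun n h1 h2 => by rw [mem_Ico] at *; omega)
    (by rw [f2 B hMB]; omega)
  have s2 := side i M 0 i le_rfl hi (fun n h1 h2 => by rw [mem_Ico] at *; omega)
    (by rw [f1 B hMB]; omega)
  rw [f1 A hMA] at s1
  rw [f2 A hMA] at s2
  have e1 := h.tri (∑ n ∈ A.filter (· < i), (t * ε n) • x n)
    (∑ n ∈ A.filter (fun n => ¬ n < i), (t * ε n) • x n)
  have e2 := h.sm t (∑ n ∈ A, ε n • x n)
  rw [sum_filter_add_sum_filter_not] at e1
  rw [tn, smul_sum, sum_congr rfl fun n _ => (mul_smul _ _ _).symm] at e2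
  nlinarith

end Pool.Agent.H.MP_f9d380_an
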